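import Mathlib
import Pool.Agent.X177.VR.Torus

/-!
# Dense finite subsets of flat tori with the wrong Vietoris-Rips homotopy type

Let `M = ℝⁿ / Λ` be a flat torus with a rectangular lattice `Λ`, whose first side has length
`2 r`.  For the grid `X_m ⊆ M` with `2 m` points in every coordinate direction, the projection to
the first coordinate circle makes the boundary `S^{m-1}` of the `m`-dimensional cross-polytope (the
Vietoris-Rips complex of `2 m` equally spaced points of a circle of length `2 r`) a retract of
`VR_<(X_m; r)`.  If `VR_<(X; r) ≃ VR_<(M; r)` for all sufficiently dense `X`, then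
`VR_<(X_a; r) ≃ VR_<(X_b; r)` for all large `a, b`, and the identity of `S^{b-1}` would factor up to
homotopy through a complex with a bounded number of vertices, for all large `b`.
-/

set_option autoImplicit false

open Set Topology Metric Manifold Bundle
open scoped ContinuousMap ContDiff Manifold

namespace Pool.Agent.Results.MP_bc4532_gt.FlatTorusFails

open Pool.Agent.X177.VR Pool.Agent.Results.MP_4a21e9_gt.FlatHull

/-- For every dimension `n ≥ 2`, every scale `r > 0` and every bound `D` there is a closed connected
Riemannian manifold `M` of dimension `n` and diameter greater than `D` (a flat torus) such that for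
every `ε > 0` there is a finite `ε`-dense subset `X` of `M` for which `VR_<(X; r)` is not homotopy
equivalent to `VR_<(M; r)`. -/
theorem result (n : ℕ) (hn : 2 ≤ n) (r : ℝ) (hr : 0 < r) (D : ℝ) :
    ∃ (M : Type) (_ : MetricSpace M) (_ : ChartedSpace (EuclideanSpace ℝ (Fin n)) M)
      (_ : IsManifold (𝓡 n) ∞ M) (g : SmoothMetric n M),
      DistIsRiemannian g ∧ CompactSpace M ∧ ConnectedSpace M ∧
      D < Metric.diam (univ : Set M) ∧
      ∀ ε : ℝ, 0 < ε → ∃ X : Set M, X.Finite ∧ (∀ p : M, ∃ x ∈ X, dist p x < ε) ∧
        IsEmpty (Realization (vietorisRips X r) ≃ₕ Realization (vietorisRips M r)) := by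
  obtain ⟨m, rfl⟩ : ∃ m, n = m + 1 + 1 := ⟨n - 2, by omega⟩
  set l : Fin (m + 1 + 1) → ℝ := fun i => if i = 0 then 2 * r else 2 * (|D| + 1) with hl'
  have hl : ∀ i, 0 < l i := by
    intro i
    simp only [hl']
    split_ifs
    · linarith
    · have := abs_nonneg D
      linarith
  have hdisc : DiscreteTopology (lat l) := lat_discrete hl
  have hcomp : CompactSpace (Tor l) := tor_compact hl
  refine ⟨Tor l, inferInstance, FlatQ.instCharted (lat l), FlatQ.instIsManifold (lat l),
    FlatQ.metric (lat l), FlatQ.instRM (lat l), hcomp, tor_connected, ?_, ?_⟩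
  · -- the diameter
    have h1 : |D| + 1 ≤ dist (pj l (EuclideanSpace.single 1 (|D| + 1))) (pj l 0) := by
      apply le_dist_pj _ _ 1
      intro k
      have e1 : (EuclideanSpace.single (1 : Fin (m + 1 + 1)) (|D| + 1) : Ed (m + 1 + 1)) 1
          = |D| + 1 := by simp
      have e2 : l 1 = 2 * (|D| + 1) := by
        simp only [hl']
        rw [if_neg]
        simp
      rw [e1, e2]
      have e3 : (|D| + 1 - (0 : Ed (m + 1 + 1)) 1 + (k : ℝ) * (2 * (|D| + 1)) : ℝ)
          = (1 + 2 * k) * (|D| + 1) := by
        have : (0 : Ed (m + 1 + 1)) 1 = 0 := rfl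
        rw [this]; ring
      have h0 : 0 < |D| + 1 := by
        have := abs_nonneg D
        linarith
      rw [e3, abs_mul, abs_of_pos h0]
      have h2 : (1 : ℝ) ≤ |1 + 2 * (k : ℝ)| := by
        have : (1 : ℤ) ≤ |1 + 2 * k| := Int.one_le_abs (by omega)
        exact_mod_cast this
      nlinarith
    have h2 : dist (pj l (EuclideanSpace.single 1 (|D| + 1))) (pj l 0)
        ≤ Metric.diam (univ : Set (Tor l)) :=
      Metric.dist_le_diam_of_mem isCompact_univ.isBounded (mem_univ _) (mem_univ _)
    have := le_abs_self D
    linarith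
  · intro ε hε
    apply density_fails
    intro N
    obtain ⟨k, hk⟩ := exists_nat_gt ((∑ i, l i) / ε)
    refine ⟨grid l (k + N + 1), k + N + 1, by omega, grid_finite hl (by omega),
      grid_dense hl (by omega) ?_, ?_⟩
    · have hsum : 0 ≤ ∑ i, l i := Finset.sum_nonneg fun i _ => (hl i).le
      rw [div_lt_iff₀ hε] at hk
      have hk0 : (0 : ℝ) ≤ k := Nat.cast_nonneg k
      have hN0 : (0 : ℝ) ≤ N := Nat.cast_nonneg N
      push_cast
      rw [div_lt_iff₀ (by linarith)]
      nlinarith
    · have h1 : l 0 / 2 = r := by
        have h0 : l 0 = 2 * r := if_pos rfl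
        rw [h0]
        ring
      have h2 := hasCross hl (m := k + N + 1) (by omega)
      rw [h1] at h2
      exact h2

end Pool.Agent.Results.MP_bc4532_gt.FlatTorusFails
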